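import Mathlib

/-!
# A small verified refutation checker

Clauses are lists of literal codes: `2n` is the variable `n`, `2n+1` its negation. A refutation is a
sequence of clauses, each obtained from the earlier ones by unit propagation along a list of hints.
-/

set_option autoImplicit false

namespace Pool.Agent.X251.FZ

/-- truth of a literal -/
def Lit (v : ℕ → Prop) (l : ℕ) : Prop := (l % 2 = 0 ∧ v (l / 2)) ∨ (l % 2 = 1 ∧ ¬ v (l / 2))

/-- truth of a clause -/
def Cl (v : ℕ → Prop) (c : List ℕ) : Prop := ∃ l ∈ c, Lit v l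

theorem cl_nil (v : ℕ → Prop) : ¬ Cl v [] := by simp [Cl]

theorem cl_cons (v : ℕ → Prop) (l : ℕ) (c : List ℕ) : Cl v (l :: c) ↔ Lit v l ∨ Cl v c := by
  simp [Cl]

theorem cl_taut (v : ℕ → Prop) : Cl v [0, 1] := by
  by_cases h : v 0
  · exact ⟨0, by simp, Or.inl ⟨rfl, h⟩⟩
  · exact ⟨1, by simp, Or.inr ⟨rfl, h⟩⟩

theorem lit_xor (v : ℕ → Prop) (l : ℕ) : Lit v (Nat.xor l 1) ↔ ¬ Lit v l := by
  have h1 : (Nat.xor l 1) / 2 = l / 2 := by
    have := Nat.xor_div_two (a := l) (b := 1)
    simpa using this
  have h2 : (Nat.xor l 1) % 2 = (l % 2 + 1) % 2 := by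
    have := Nat.xor_mod_two_eq (m := l) (n := 1)
    have h3 : (Nat.xor l 1) % 2 = (l + 1) % 2 := this
    omega
  unfold Lit
  rw [h1, h2]
  rcases Nat.mod_two_eq_zero_or_one l with h | h
  · simp [h]
  · simp [h]

/-- the bit of the mask: literal `l` is known to be false -/
def fals (m l : ℕ) : Bool := Nat.beq (Nat.land (Nat.shiftRight m l) 1) 1

theorem fals_eq (m l : ℕ) : fals m l = m.testBit l := by
  unfold fals
  have h : Nat.land (Nat.shiftRight m l) 1 = (m >>> l) &&& 1 := rfl
  rw [h, Nat.testBit, Nat.and_comm 1 (m >>> l)]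
  have h2 : (m >>> l) &&& 1 = (m >>> l) % 2 := Nat.and_one_is_mod _
  rw [h2]
  rcases Nat.mod_two_eq_zero_or_one (m >>> l) with h | h <;> rw [h] <;> rfl

/-- mark the literal `l` as false -/
def mk (m l : ℕ) : ℕ := Nat.lor m (Nat.shiftLeft 1 l)

theorem fals_mk (m l k : ℕ) : fals (mk m l) k = true ↔ fals m k = true ∨ k = l := by
  rw [fals_eq, fals_eq]
  have h : mk m l = m ||| (1 <<< l) := rfl
  rw [h, Nat.testBit_or, Nat.one_shiftLeft, Nat.testBit_two_pow]
  simp only [Bool.or_eq_true, decide_eq_true_eq]
  constructor
  · rintro (h | h)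
    · exact Or.inl h
    · exact Or.inr h.symm
  · rintro (h | h)
    · exact Or.inl h
    · exact Or.inr h.symm

/-- all literals marked in the mask are false -/
def MV (v : ℕ → Prop) (m : ℕ) : Prop := ∀ l, fals m l = true → ¬ Lit v l

theorem mv_mk {v : ℕ → Prop} {m l : ℕ} (h : MV v m) (hl : ¬ Lit v l) : MV v (mk m l) := by
  intro k hk
  rcases (fals_mk m l k).1 hk with h1 | rfl
  · exact h k h1
  · exact hl

theorem mv_zero (v : ℕ → Prop) : MV v 0 := by
  intro l hl
  rw [fals_eq] at hl
  simp at hl

/-- scan a clause: `0` = all literals false, `l + 2` = exactly one literal `l` is not marked false,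
`1` = several. -/
def scan (m : ℕ) : List ℕ → ℕ → ℕ
  | [], acc => acc
  | l :: t, acc => cond (fals m l) (scan m t acc) (cond (Nat.beq acc 0) (scan m t (Nat.add l 2)) 1)

theorem scan_spec {v : ℕ → Prop} {m : ℕ} (hm : MV v m) : ∀ (c : List ℕ) (acc : ℕ),
    (scan m c acc = 0 → acc = 0 ∧ ¬ Cl v c) ∧
    (∀ l, scan m c acc = l + 2 → (acc = l + 2 ∧ ¬ Cl v c) ∨ (acc = 0 ∧ (Cl v c → Lit v l))) := by
  intro c
  induction c with
  | nil =>
    intro acc
    refine ⟨fun h => ⟨h, cl_nil v⟩, fun l h => Or.inl ⟨h, cl_nil v⟩⟩
  | cons l0 t ih =>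
    intro acc
    by_cases hf : fals m l0 = true
    · have e : scan m (l0 :: t) acc = scan m t acc := by simp [scan, hf]
      rw [e]
      have hn := hm l0 hf
      obtain ⟨h1, h2⟩ := ih acc
      refine ⟨fun h => ⟨(h1 h).1, ?_⟩, fun l h => ?_⟩
      · rw [cl_cons]; rintro (h' | h')
        · exact hn h'
        · exact (h1 h).2 h'
      · rcases h2 l h with ⟨h3, h4⟩ | ⟨h3, h4⟩
        · refine Or.inl ⟨h3, ?_⟩
          rw [cl_cons]; rintro (h' | h')
          · exact hn h'
          · exact h4 h'
        · refine Or.inr ⟨h3, ?_⟩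
          rw [cl_cons]; rintro (h' | h')
          · exact absurd h' hn
          · exact h4 h'
    · have hf' : fals m l0 = false := by simpa using hf
      by_cases ha : acc = 0
      · subst ha
        have e : scan m (l0 :: t) 0 = scan m t (l0 + 2) := by
          simp only [scan, hf', cond_false]; rfl
        rw [e]
        obtain ⟨h1, h2⟩ := ih (l0 + 2)
        refine ⟨fun h => ?_, fun l h => ?_⟩
        · have := (h1 h).1; omega
        · rcases h2 l h with ⟨h3, h4⟩ | ⟨h3, h4⟩
          · have : l = l0 := by omega
            subst this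
            refine Or.inr ⟨rfl, ?_⟩
            rw [cl_cons]; rintro (h' | h')
            · exact h'
            · exact absurd h' h4
          · omega
      · have e : scan m (l0 :: t) acc = 1 := by
          have hb : Nat.beq acc 0 = false := by
            rw [Bool.eq_false_iff]; intro h; exact ha (Nat.eq_of_beq_eq_true h)
          simp only [scan, hf', cond_false, hb]
        rw [e]
        refine ⟨fun h => by omega, fun l h => by omega⟩

/-- a binary tree of clauses -/
inductive Tr
  | lf : Tr
  | nd : List ℕ → Tr → Tr → Tr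

/-- look up clause number `n` -/
def find : Tr → ℕ → List ℕ
  | .lf, _ => [0, 1]
  | .nd c l r, n => cond (Nat.beq n 0) c
      (cond (Nat.beq (Nat.mod n 2) 1) (find l (Nat.div n 2)) (find r (Nat.sub (Nat.div n 2) 1)))

/-- unit propagation along the hints -/
def rup (T : Tr) (bd : ℕ) : ℕ → List ℕ → Bool
  | _, [] => false
  | m, h :: hs => cond (Nat.ble (Nat.succ h) bd)
      (match scan m (find T h) 0 with
        | 0 => true
        | 1 => false
        | l + 2 => rup T bd (mk m (Nat.xor l 1)) hs)
      false

theorem rup_sound {v : ℕ → Prop} {T : Tr} {bd : ℕ} (hT : ∀ n < bd, Cl v (find T n)) :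
    ∀ (hs : List ℕ) (m : ℕ), MV v m → rup T bd m hs = true → False := by
  intro hs
  induction hs with
  | nil => intro m _ h; simp [rup] at h
  | cons h0 t ih =>
    intro m hm h
    by_cases hb : Nat.ble (Nat.succ h0) bd = true
    · have hlt : h0 < bd := Nat.le_of_ble_eq_true hb
      have hc := hT h0 hlt
      obtain ⟨h1, h2⟩ := scan_spec hm (find T h0) 0
      rw [rup, hb, cond_true] at h
      rcases hs : scan m (find T h0) 0 with _ | _ | l
      · exact (h1 hs).2 hc
      · rw [hs] at h; simp at h
      · rw [hs] at h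
        rcases h2 l hs with ⟨h3, _⟩ | ⟨_, h4⟩
        · omega
        · refine ih _ (mv_mk hm ?_) h
          rw [lit_xor]; exact fun hn => hn (h4 hc)
    · have hb' : Nat.ble (Nat.succ h0) bd = false := Bool.eq_false_iff.2 hb
      rw [rup, hb', cond_false] at h
      exact Bool.noConfusion h

/-- mark all literals of a clause as false -/
def negAll : ℕ → List ℕ → ℕ
  | m, [] => m
  | m, l :: t => negAll (mk m l) t

theorem negAll_mv {v : ℕ → Prop} : ∀ (c : List ℕ) (m : ℕ), MV v m → ¬ Cl v c → MV v (negAll m c) := by
  intro c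
  induction c with
  | nil => intro m hm _; exact hm
  | cons l t ih =>
    intro m hm hc
    rw [cl_cons] at hc
    push Not at hc
    exact ih _ (mv_mk hm hc.1) hc.2

/-- check a sequence of derived clauses -/
def run (T : Tr) (m0 : ℕ) : ℕ → List (List ℕ) → Bool
  | _, [] => true
  | n, hs :: r => cond (rup T n (negAll m0 (find T n)) hs) (run T m0 (Nat.succ n) r) false

theorem run_sound {v : ℕ → Prop} {T : Tr} {m0 : ℕ} (hm : MV v m0) :
    ∀ (L : List (List ℕ)) (n : ℕ), (∀ i < n, Cl v (find T i)) → run T m0 n L = true →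
      ∀ i < n + L.length, Cl v (find T i) := by
  intro L
  induction L with
  | nil => intro n h _ i hi; exact h i (by simpa using hi)
  | cons hs r ih =>
    intro n h hr i hi
    rw [run] at hr
    rcases hb : rup T n (negAll m0 (find T n)) hs with _ | _
    · rw [hb] at hr; simp at hr
    · rw [hb, cond_true] at hr
      have hn : Cl v (find T n) := by
        by_contra hc
        exact rup_sound h hs _ (negAll_mv _ _ hm hc) hb
      refine ih (n + 1) ?_ hr i (by simp only [List.length_cons] at hi; omega)
      intro j hj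
      rcases Nat.lt_succ_iff_lt_or_eq.1 hj with h1 | rfl
      · exact h j h1
      · exact hn

/-- equality of lists of numbers -/
def beqL : List ℕ → List ℕ → Bool
  | [], [] => true
  | a :: s, b :: t => cond (Nat.beq a b) (beqL s t) false
  | _, _ => false

theorem beqL_eq : ∀ (s t : List ℕ), beqL s t = true → s = t := by
  intro s
  induction s with
  | nil => intro t h; cases t with
    | nil => rfl
    | cons _ _ => simp [beqL] at h
  | cons a s ih =>
    intro t h
    cases t with
    | nil => simp [beqL] at h
    | cons b t =>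
      rw [beqL] at h
      rcases hb : Nat.beq a b with _ | _
      · rw [hb] at h; simp at h
      · rw [hb, cond_true] at h
        rw [Nat.eq_of_beq_eq_true hb, ih t h]

/-- clauses `n, n+1, ...` of the tree are the listed ones -/
def chk {α : Type} (f : α → List ℕ) (ok : α → Bool) (T : Tr) : ℕ → List α → Bool
  | _, [] => true
  | n, a :: r => cond (ok a) (cond (beqL (find T n) (f a)) (chk f ok T (Nat.succ n) r) false) false

theorem chk_sound {α : Type} {f : α → List ℕ} {ok : α → Bool} {v : ℕ → Prop} {T : Tr}
    (hf : ∀ a, ok a = true → Cl v (f a)) :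
    ∀ (L : List α) (n : ℕ), (∀ i < n, Cl v (find T i)) → chk f ok T n L = true →
      ∀ i < n + L.length, Cl v (find T i) := by
  intro L
  induction L with
  | nil => intro n h _ i hi; exact h i (by simpa using hi)
  | cons a r ih =>
    intro n h hr i hi
    rw [chk] at hr
    rcases ho : ok a with _ | _
    · rw [ho] at hr; simp at hr
    · rw [ho, cond_true] at hr
      rcases hb : beqL (find T n) (f a) with _ | _
      · rw [hb] at hr; simp at hr
      · rw [hb, cond_true] at hr
        have hn : Cl v (find T n) := by rw [beqL_eq _ _ hb]; exact hf a ho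
        refine ih (n + 1) ?_ hr i (by simp only [List.length_cons] at hi; omega)
        intro j hj
        rcases Nat.lt_succ_iff_lt_or_eq.1 hj with h1 | rfl
        · exact h j h1
        · exact hn

/-- **Soundness.** If the first clauses of the tree are true, the units of the mask are true and the
run succeeds, ending with the empty clause, we have a contradiction. -/
theorem refute {α : Type} {f : α → List ℕ} {ok : α → Bool} {v : ℕ → Prop} {T : Tr} {m0 : ℕ}
    {A : List α} {L : List (List ℕ)}
    (hf : ∀ a, ok a = true → Cl v (f a)) (hm : MV v m0)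
    (h1 : chk f ok T 0 A = true) (h2 : run T m0 A.length L = true)
    (h3 : beqL (find T (A.length + L.length - 1)) [] = true) (h4 : 0 < L.length) : False := by
  have h5 := chk_sound hf A 0 (fun i hi => absurd hi (Nat.not_lt_zero i)) h1
  have h6 := run_sound hm L A.length (fun i hi => h5 i (by omega)) h2
    (A.length + L.length - 1) (by omega)
  rw [beqL_eq _ _ h3] at h6
  exact cl_nil v h6

end Pool.Agent.X251.FZ
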