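import Mathlib
import Pool.Agent.X251.FZ.Check

/-!
# The clauses describing a `P₅`-free relation with a 3-colouring
-/

set_option autoImplicit false

namespace Pool.Agent.X251.FZ

/-- code of the variable: vertex `i` is adjacent to vertex `j` (`i, j < 32`) -/
def ev (i j : ℕ) : ℕ := cond (Nat.blt i j) (Nat.add (Nat.mul 32 i) j) (Nat.add (Nat.mul 32 j) i)

/-- code of the variable: vertex `i` has colour `k` (`i < 32`, `k < 4`) -/
def fv (i k : ℕ) : ℕ := Nat.add 1024 (Nat.add (Nat.mul 4 i) k)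

/-- positive literal -/
def ps (x : ℕ) : ℕ := Nat.mul 2 x
/-- negative literal -/
def ng (x : ℕ) : ℕ := Nat.succ (Nat.mul 2 x)

/-- the valuation given by a relation, a colouring and a sequence of vertices -/
def val {V : Type*} (A : V → V → Prop) (f : V → ℕ) (W : ℕ → V) (n : ℕ) : Prop :=
  (n < 1024 ∧ A (W (n / 32)) (W (n % 32))) ∨ (1024 ≤ n ∧ f (W ((n - 1024) / 4)) = (n - 1024) % 4)

section
variable {V : Type*} {A : V → V → Prop} {f : V → ℕ} {W : ℕ → V}

theorem val_ev (hs : ∀ x y, A x y → A y x) {i j : ℕ} (hi : i < 32) (hj : j < 32) :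
    val A f W (ev i j) ↔ A (W i) (W j) := by
  unfold ev
  by_cases h : i < j
  · have hb : Nat.blt i j = true := by
      unfold Nat.blt; exact Nat.ble_eq.mpr h
    rw [hb, cond_true]
    have e : Nat.add (Nat.mul 32 i) j = 32 * i + j := rfl
    rw [e]
    unfold val
    have h1 : (32 * i + j) / 32 = i := by omega
    have h2 : (32 * i + j) % 32 = j := by omega
    rw [h1, h2]
    constructor
    · rintro (h3 | h3)
      · exact h3.2
      · omega
    · intro h3; exact Or.inl ⟨by omega, h3⟩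
  · have hb : Nat.blt i j = false := by
      rw [Bool.eq_false_iff]; intro hb; unfold Nat.blt at hb; exact h (Nat.ble_eq.mp hb)
    rw [hb, cond_false]
    have e : Nat.add (Nat.mul 32 j) i = 32 * j + i := rfl
    rw [e]
    unfold val
    have h1 : (32 * j + i) / 32 = j := by omega
    have h2 : (32 * j + i) % 32 = i := by omega
    rw [h1, h2]
    constructor
    · rintro (h3 | h3)
      · exact hs _ _ h3.2
      · omega
    · intro h3; exact Or.inl ⟨by omega, hs _ _ h3⟩

theorem val_fv {i k : ℕ} (_hi : i < 32) (hk : k < 4) :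
    val A f W (fv i k) ↔ f (W i) = k := by
  have e : fv i k = 1024 + (4 * i + k) := rfl
  rw [e]
  unfold val
  have h1 : (1024 + (4 * i + k) - 1024) / 4 = i := by omega
  have h2 : (1024 + (4 * i + k) - 1024) % 4 = k := by omega
  rw [h1, h2]
  constructor
  · rintro (h3 | h3)
    · omega
    · exact h3.2
  · intro h3; exact Or.inr ⟨by omega, h3⟩

theorem lit_ps {v : ℕ → Prop} {x : ℕ} : Lit v (ps x) ↔ v x := by
  have e : ps x = 2 * x := rfl
  rw [e]
  unfold Lit
  have h1 : 2 * x / 2 = x := by omega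
  have h2 : 2 * x % 2 = 0 := by omega
  rw [h1, h2]; simp

theorem lit_ng {v : ℕ → Prop} {x : ℕ} : Lit v (ng x) ↔ ¬ v x := by
  have e : ng x = 2 * x + 1 := rfl
  rw [e]
  unfold Lit
  have h1 : (2 * x + 1) / 2 = x := by omega
  have h2 : (2 * x + 1) % 2 = 1 := by omega
  rw [h1, h2]; simp

end

/-- the clause families -/
inductive Ax
  | p5 : ℕ → ℕ → ℕ → ℕ → ℕ → Ax
  | one : ℕ → Ax
  | amo : ℕ → ℕ → ℕ → Ax
  | pr : ℕ → ℕ → ℕ → Ax
  | dom : ℕ → Ax
  | ex : ℕ → Ax

/-- number `k` of a list of clauses -/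
def nth : List (List ℕ) → ℕ → List ℕ
  | [], _ => [0, 1]
  | c :: t, n => cond (Nat.beq n 0) c (nth t (Nat.sub n 1))

/-- the clause of a family member; `E` is a list of extra clauses -/
def Ax.cl (E : List (List ℕ)) : Ax → List ℕ
  | .p5 a b c d e => [ng (ev a b), ng (ev b c), ng (ev c d), ng (ev d e), ps (ev a c), ps (ev a d),
      ps (ev a e), ps (ev b d), ps (ev b e), ps (ev c e)]
  | .one i => [ps (fv i 0), ps (fv i 1), ps (fv i 2)]
  | .amo i p q => [ng (fv i p), ng (fv i q)]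
  | .pr i j k => [ng (ev i j), ng (fv i k), ng (fv j k)]
  | .dom i => [ps (ev i 0), ps (ev i 1), ps (ev i 2)]
  | .ex k => nth E k

/-- `a < b` as a Boolean -/
def lt' (a b : ℕ) : Bool := Nat.ble (Nat.succ a) b

theorem lt'_iff {a b : ℕ} : lt' a b = true ↔ a < b := by
  unfold lt'; exact ⟨fun h => Nat.ble_eq.mp h, fun h => Nat.ble_eq.mpr h⟩

/-- side conditions; families `dom` and colours may be switched off -/
def Ax.ok (dm cm : Bool) : Ax → Bool
  | .p5 a b c d e => lt' a 32 && lt' b 32 && lt' c 32 && lt' d 32 && lt' e 32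
  | .one i => cm && lt' i 32
  | .amo i p q => cm && lt' i 32 && lt' p 4 && lt' q 4 && (lt' p q || lt' q p)
  | .pr i j k => cm && lt' i 32 && lt' j 32 && lt' k 4
  | .dom i => dm && lt' i 32
  | .ex _ => true

theorem nth_valid {v : ℕ → Prop} : ∀ {E : List (List ℕ)}, (∀ c ∈ E, Cl v c) → ∀ k, Cl v (nth E k) := by
  intro E
  induction E with
  | nil => intro _ k; exact cl_taut v
  | cons c t ih =>
    intro h k
    rw [nth]
    rcases hb : Nat.beq k 0 with _ | _
    · rw [cond_false]; exact ih (fun c' hc' => h c' (List.mem_cons_of_mem _ hc')) _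
    · rw [cond_true]; exact h c List.mem_cons_self

/-- All clauses of the families are true. -/
theorem ax_valid {V : Type*} {A : V → V → Prop} {f : V → ℕ} {W : ℕ → V} {dm cm : Bool}
    {E : List (List ℕ)}
    (hs : ∀ x y, A x y → A y x)
    (hp : ∀ a b c d e, A a b → A b c → A c d → A d e → ¬ A a c → ¬ A a d → ¬ A a e → ¬ A b d →
      ¬ A b e → ¬ A c e → False)
    (hf : cm = true → (∀ x, f x < 3) ∧ ∀ x y, A x y → f x ≠ f y)
    (hd : dm = true → ∀ i < 32, A (W i) (W 0) ∨ A (W i) (W 1) ∨ A (W i) (W 2))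
    (hE : ∀ c ∈ E, Cl (val A f W) c) (a : Ax) (h : a.ok dm cm = true) :
    Cl (val A f W) (a.cl E) := by
  cases a with
  | p5 a b c d e =>
    simp only [Ax.ok, Bool.and_eq_true, lt'_iff] at h
    obtain ⟨⟨⟨⟨ha, hb⟩, hc⟩, hd'⟩, he⟩ := h
    simp only [Ax.cl, cl_cons, lit_ps, lit_ng, val_ev hs ha hb, val_ev hs hb hc, val_ev hs hc hd',
      val_ev hs hd' he, val_ev hs ha hc, val_ev hs ha hd', val_ev hs ha he, val_ev hs hb hd',
      val_ev hs hb he, val_ev hs hc he]
    by_contra hcon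
    simp only [not_or, not_not] at hcon
    obtain ⟨h1, h2, h3, h4, h5, h6, h7, h8, h9, h10, _⟩ := hcon
    exact hp _ _ _ _ _ h1 h2 h3 h4 h5 h6 h7 h8 h9 h10
  | one i =>
    simp only [Ax.ok, Bool.and_eq_true, lt'_iff] at h
    obtain ⟨hc, hi⟩ := h
    have h3 := (hf hc).1 (W i)
    simp only [Ax.cl, cl_cons, lit_ps, val_fv hi (show 0 < 4 by norm_num),
      val_fv hi (show 1 < 4 by norm_num), val_fv hi (show 2 < 4 by norm_num)]
    omega
  | amo i p q =>
    simp only [Ax.ok, Bool.and_eq_true, lt'_iff, Bool.or_eq_true] at h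
    obtain ⟨⟨⟨⟨hc, hi⟩, hp'⟩, hq⟩, hpq⟩ := h
    simp only [Ax.cl, cl_cons, lit_ng, val_fv hi hp', val_fv hi hq]
    omega
  | pr i j k =>
    simp only [Ax.ok, Bool.and_eq_true, lt'_iff] at h
    obtain ⟨⟨⟨hc, hi⟩, hj⟩, hk⟩ := h
    simp only [Ax.cl, cl_cons, lit_ng, val_ev hs hi hj, val_fv hi hk, val_fv hj hk]
    by_contra hcon
    simp only [not_or, not_not] at hcon
    exact (hf hc).2 _ _ hcon.1 (by rw [hcon.2.1, hcon.2.2.1])
  | dom i =>
    simp only [Ax.ok, Bool.and_eq_true, lt'_iff] at h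
    obtain ⟨hdm, hi⟩ := h
    have := hd hdm i hi
    simp only [Ax.cl, cl_cons, lit_ps, val_ev hs hi (show 0 < 32 by norm_num),
      val_ev hs hi (show 1 < 32 by norm_num), val_ev hs hi (show 2 < 32 by norm_num)]
    tauto
  | ex k => exact nth_valid hE k

/-- the mask of known adjacencies `P`, non-adjacencies `N` and colours `F` -/
def maskP : ℕ → List (ℕ × ℕ) → ℕ
  | m, [] => m
  | m, p :: t => maskP (mk m (ng (ev p.1 p.2))) t

/-- see `maskP` -/
def maskN : ℕ → List (ℕ × ℕ) → ℕ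
  | m, [] => m
  | m, p :: t => maskN (mk m (ps (ev p.1 p.2))) t

/-- see `maskP` -/
def maskF : ℕ → List (ℕ × ℕ) → ℕ
  | m, [] => m
  | m, p :: t => maskF (mk m (ng (fv p.1 p.2))) t

section
variable {V : Type*} {A : V → V → Prop} {f : V → ℕ} {W : ℕ → V}

theorem maskP_mv (hs : ∀ x y, A x y → A y x) : ∀ (P : List (ℕ × ℕ)) (m : ℕ),
    MV (val A f W) m → (∀ p ∈ P, p.1 < 32 ∧ p.2 < 32 ∧ A (W p.1) (W p.2)) →
    MV (val A f W) (maskP m P) := by
  intro P
  induction P with
  | nil => intro m hm _; exact hm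
  | cons p t ih =>
    intro m hm h
    obtain ⟨h1, h2, h3⟩ := h p List.mem_cons_self
    refine ih _ (mv_mk hm ?_) (fun q hq => h q (List.mem_cons_of_mem _ hq))
    rw [lit_ng, val_ev hs h1 h2]; exact fun hn => hn h3

theorem maskN_mv (hs : ∀ x y, A x y → A y x) : ∀ (P : List (ℕ × ℕ)) (m : ℕ),
    MV (val A f W) m → (∀ p ∈ P, p.1 < 32 ∧ p.2 < 32 ∧ ¬ A (W p.1) (W p.2)) →
    MV (val A f W) (maskN m P) := by
  intro P
  induction P with
  | nil => intro m hm _; exact hm
  | cons p t ih =>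
    intro m hm h
    obtain ⟨h1, h2, h3⟩ := h p List.mem_cons_self
    refine ih _ (mv_mk hm ?_) (fun q hq => h q (List.mem_cons_of_mem _ hq))
    rw [lit_ps, val_ev hs h1 h2]; exact h3

theorem maskF_mv : ∀ (P : List (ℕ × ℕ)) (m : ℕ),
    MV (val A f W) m → (∀ p ∈ P, p.1 < 32 ∧ p.2 < 4 ∧ f (W p.1) = p.2) →
    MV (val A f W) (maskF m P) := by
  intro P
  induction P with
  | nil => intro m hm _; exact hm
  | cons p t ih =>
    intro m hm h
    obtain ⟨h1, h2, h3⟩ := h p List.mem_cons_self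
    refine ih _ (mv_mk hm ?_) (fun q hq => h q (List.mem_cons_of_mem _ hq))
    rw [lit_ng, val_fv h1 h2]; exact fun hn => hn h3

end

end Pool.Agent.X251.FZ
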