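import Mathlib
import Pool.Agent.X251.FZ.Ax

/-!
# Trees of witnesses in a relation with a frozen colouring
-/

set_option autoImplicit false

namespace Pool.Agent.X251.FZ

/-- A `P₅`-free symmetric relation with a proper 3-colouring `f` and a proper colouring `c` such that
every vertex has neighbours of all colours `k < 4` other than its own. -/
structure Sys {V : Type*} (A : V → V → Prop) (f c : V → ℕ) : Prop where
  symm : ∀ x y, A x y → A y x
  p5 : ∀ a b c d e, A a b → A b c → A c d → A d e → ¬ A a c → ¬ A a d → ¬ A a e → ¬ A b d →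
      ¬ A b e → ¬ A c e → False
  f3 : ∀ x, f x < 3
  fp : ∀ x y, A x y → f x ≠ f y
  cp : ∀ x y, A x y → c x ≠ c y
  fr : ∀ x k, k < 4 → k ≠ c x → ∃ y, A x y ∧ c y = k

/-- the list `T` of pairs (parent, colour) describes a tree of witnesses grown from vertices with
colours `cols` -/
def okT : List ℕ → List (ℕ × ℕ) → Bool
  | _, [] => true
  | cols, p :: t => decide (p.1 < cols.length) && decide (p.2 < 4) &&
      decide (p.2 ≠ cols.getD p.1 0) && okT (cols ++ [p.2]) t

variable {V : Type*} {A : V → V → Prop} {f c : V → ℕ}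

theorem exists_W (h : Sys A f c) : ∀ (T : List (ℕ × ℕ)) (w : ℕ → V) (cols : List ℕ),
    (∀ i < cols.length, c (w i) = cols.getD i 0) → okT cols T = true →
    ∃ W : ℕ → V, (∀ i < cols.length, W i = w i) ∧
      (∀ j (hj : j < T.length), A (W (T[j]).1) (W (cols.length + j))) ∧
      (∀ i < cols.length + T.length, c (W i) = (cols ++ T.map Prod.snd).getD i 0) := by
  intro T
  induction T with
  | nil =>
    intro w cols hc _
    refine ⟨w, fun _ _ => rfl, fun j hj => absurd hj (by simp), fun i hi => ?_⟩
    simpa using hc i (by simpa using hi)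
  | cons p t ih =>
    intro w cols hc hok
    rw [okT] at hok
    simp only [Bool.and_eq_true, decide_eq_true_eq] at hok
    obtain ⟨⟨⟨h1, h2⟩, h3⟩, h4⟩ := hok
    obtain ⟨y, hy1, hy2⟩ := h.fr (w p.1) p.2 h2 (by rw [hc _ h1]; exact h3)
    obtain ⟨W, hW1, hW2, hW3⟩ := ih (Function.update w cols.length y) (cols ++ [p.2]) (by
      intro i hi
      simp only [List.length_append, List.length_singleton] at hi
      rcases Nat.lt_succ_iff_lt_or_eq.1 hi with hi | rfl
      · rw [Function.update_of_ne (by omega), hc i hi, List.getD_append _ _ _ _ hi]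
      · rw [Function.update_self, hy2, List.getD_append_right _ _ _ _ le_rfl]
        simp) h4
    simp only [List.length_append, List.length_singleton] at hW1 hW2 hW3
    have hWp : W p.1 = w p.1 := by
      rw [hW1 _ (by omega), Function.update_of_ne (by omega)]
    have hWn : W cols.length = y := by rw [hW1 _ (by omega), Function.update_self]
    refine ⟨W, ?_, ?_, ?_⟩
    · intro i hi
      rw [hW1 i (by omega), Function.update_of_ne (by omega)]
    · intro j hj
      rcases j with _ | j
      · simp only [List.getElem_cons_zero, Nat.add_zero]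
        rw [hWp, hWn]; exact hy1
      · simp only [List.getElem_cons_succ]
        have := hW2 j (by simpa using hj)
        rwa [Nat.add_assoc, Nat.add_comm 1 j] at this
    · intro i hi
      simp only [List.length_cons] at hi
      have := hW3 i (by omega)
      rw [this]
      simp [List.append_assoc]

/-- known adjacencies -/
def okP (tri : Bool) (T : List (ℕ × ℕ)) (p : ℕ × ℕ) : Bool :=
  decide (p.1 < 32) && decide (p.2 < 32) &&
    (decide (p = (0, 1)) || decide (p = (1, 2)) || (tri && decide (p = (0, 2))) ||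
      (decide (3 ≤ p.2) && decide ((T.map Prod.fst)[p.2 - 3]? = some p.1)))

/-- known non-adjacencies -/
def okN (tri : Bool) (cols : List ℕ) (p : ℕ × ℕ) : Bool :=
  decide (p.1 < 32) && decide (p.2 < 32) &&
    ((!tri && decide (p = (0, 2))) ||
      (decide (p.1 < cols.length) && decide (p.2 < cols.length) &&
        decide (cols.getD p.1 0 = cols.getD p.2 0)))

/-- The data of a refutation. -/
structure Dat where
  T : List (ℕ × ℕ)
  k2 : ℕ
  tri : Bool
  f2 : ℕ
  P : List (ℕ × ℕ)
  N : List (ℕ × ℕ)
  m0 : ℕ
  axs : List Ax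
  tr : Tr
  L : List (List ℕ)

/-- the cheap checks -/
def Dat.pre (D : Dat) : Bool :=
  okT [0, 1, D.k2] D.T && D.P.all (okP D.tri D.T) && D.N.all (okN D.tri ([0, 1, D.k2] ++ D.T.map Prod.snd)) &&
    decide (D.f2 < 4) &&
    Nat.beq D.m0 (maskF (maskN (maskP 0 D.P) D.N) [(0, 0), (1, 1), (2, D.f2)])

theorem case_refute (D : Dat) (h : Sys A f c) {x y z : V} (hxy : A x y) (hyz : A y z)
    (hdom : ∀ w, A w x ∨ A w y ∨ A w z)
    (hcx : c x = 0) (hcy : c y = 1) (hcz : c z = D.k2)
    (hfx : f x = 0) (hfy : f y = 1) (hfz : f z = D.f2)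
    (htri : D.tri = true → A x z) (htri' : D.tri = false → ¬ A x z)
    (hpre : D.pre = true)
    (h1 : chk (Ax.cl []) (Ax.ok true true) D.tr 0 D.axs = true)
    (h2 : run D.tr D.m0 D.axs.length D.L = true)
    (h3 : beqL (find D.tr (D.axs.length + D.L.length - 1)) [] = true) (h4 : 0 < D.L.length) :
    False := by
  unfold Dat.pre at hpre
  simp only [Bool.and_eq_true, decide_eq_true_eq] at hpre
  obtain ⟨⟨⟨⟨hT, hP⟩, hN⟩, hf2⟩, hm⟩ := hpre
  obtain ⟨W, hW1, hW2, hW3⟩ := exists_W h D.T (fun i => if i = 0 then x else if i = 1 then y else z)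
    [0, 1, D.k2] (by
      intro i hi
      simp only [List.length_cons, List.length_nil] at hi
      interval_cases i
      · simpa using hcx
      · simpa using hcy
      · simpa using hcz) hT
  have hW0 : W 0 = x := by rw [hW1 0 (by simp)]; simp
  have hW1' : W 1 = y := by rw [hW1 1 (by simp)]; simp
  have hW2' : W 2 = z := by rw [hW1 2 (by simp)]; simp
  have hmv : MV (val A f W) D.m0 := by
    rw [Nat.eq_of_beq_eq_true hm]
    refine maskF_mv _ _ (maskN_mv h.symm _ _ (maskP_mv h.symm _ _ (mv_zero _) ?_) ?_) ?_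
    · intro p hp
      have := List.all_eq_true.1 hP p hp
      unfold okP at this
      simp only [Bool.and_eq_true, decide_eq_true_eq, Bool.or_eq_true] at this
      obtain ⟨⟨h5, h6⟩, ((h7 | h7) | h7) | h7⟩ := this
      · subst h7; exact ⟨h5, h6, by simp only [hW0, hW1']; exact hxy⟩
      · subst h7; exact ⟨h5, h6, by simp only [hW2', hW1']; exact hyz⟩
      · obtain ⟨h8, rfl⟩ := h7; exact ⟨h5, h6, by simp only [hW0, hW2']; exact htri h8⟩
      · refine ⟨h5, h6, ?_⟩
        obtain ⟨h8, h9⟩ := h7
        rw [List.getElem?_eq_some_iff] at h9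
        obtain ⟨h10, h11⟩ := h9
        rw [List.length_map] at h10
        have h12 := hW2 (p.2 - 3) h10
        rw [List.getElem_map] at h11
        rw [h11] at h12
        simp only [List.length_cons, List.length_nil] at h12
        rwa [show 0 + 1 + 1 + 1 + (p.2 - 3) = p.2 by omega] at h12
    · intro p hp
      have := List.all_eq_true.1 hN p hp
      unfold okN at this
      simp only [Bool.and_eq_true, decide_eq_true_eq, Bool.or_eq_true, Bool.not_eq_true'] at this
      obtain ⟨⟨h5, h6⟩, h7 | h7⟩ := this
      · obtain ⟨h8, rfl⟩ := h7; exact ⟨h5, h6, by simp only [hW0, hW2']; exact htri' h8⟩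
      · refine ⟨h5, h6, fun hA => h.cp _ _ hA ?_⟩
        obtain ⟨⟨h8, h9⟩, h10⟩ := h7
        rw [List.length_append, List.length_map] at h8 h9
        rw [hW3 _ h8, hW3 _ h9, h10]
    · intro p hp
      simp only [List.mem_cons, List.not_mem_nil, or_false] at hp
      rcases hp with rfl | rfl | rfl
      · exact ⟨by norm_num, by norm_num, by simp only [hW0]; exact hfx⟩
      · exact ⟨by norm_num, by norm_num, by simp only [hW1']; exact hfy⟩
      · exact ⟨by norm_num, hf2, by simp only [hW2']; exact hfz⟩
  refine refute (v := val A f W) (fun a ha => ax_valid (dm := true) (cm := true) h.symm h.p5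
    (fun _ => ⟨h.f3, h.fp⟩) (fun _ i _ => ?_) (by simp) a ha) hmv h1 h2 h3 h4
  rw [hW0, hW1', hW2']; exact hdom _

end Pool.Agent.X251.FZ
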