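import Mathlib
import Pool.Agent.X251.FZ.Tree

set_option autoImplicit false

namespace Pool.Agent.X251.FZ

namespace StT

/-- clauses -/
def tr : Tr := (.nd [271,15,5,139,8,136,266,142,334,10] (.nd [3,71,203] (.nd [5,7,13] (.nd [201,135,5,15,136,8,270,6,206,142] (.nd [5,7,205] (.nd [7] .lf .lf) .lf) (.nd [3,71,10,74,138] .lf .lf)) (.nd [3,71,201,267,6,8,10,72,74,202] (.nd [3,71,11] .lf .lf) (.nd [6,70] .lf .lf))) (.nd [267,139,69,77,136,72,268,74,332,140] (.nd [5,7,12,76,140] (.nd [135,69,77,399,70,204,206,140,142,78] (.nd [] .lf .lf) .lf) (.nd [201,7,3,77,8,72,268,70,204,12] .lf .lf)) (.nd [69,135,207] (.nd [6,70,134] .lf .lf) (.nd [6,71] .lf .lf)))) (.nd [7,5,139,333,134,202,204,10,12,140] (.nd [3,71,75] (.nd [69,135,201,271,70,72,78,136,142,206] (.nd [69,135,79] (.nd [70] .lf .lf) .lf) (.nd [71,3,15,335,6,206,202,78,74,10] .lf .lf)) (.nd [5,7,141] (.nd [69,135,14,78,142] .lf .lf) (.nd [70,269] .lf .lf))) (.nd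 [7,71,135] (.nd [269,77,3,15,72,8,270,12,398,78] (.nd [69,135,143] .lf .lf) (.nd [7,70,269] .lf .lf)) (.nd [5,7,201,269,134,136,140,8,12,204] (.nd [201,71,69,139,72,136,266,134,202,74] .lf .lf) (.nd [269] .lf .lf)))))

/-- the clauses taken from the families -/
def axs : List Ax := [.p5 4 7 0 2 5, .ex 4, .p5 3 0 2 5 6, .ex 7, .ex 3, .p5 4 5 2 1 6, .ex 1, .p5 4 3 2 0 7, .p5 1 2 3 4 7, .ex 9, .p5 4 6 1 0 7, .p5 0 1 3 4 5, .ex 6, .ex 12, .p5 2 0 3 4 6, .ex 8, .ex 10, .p5 3 2 1 6 7, .ex 11, .ex 2, .ex 13, .ex 0, .p5 4 3 1 2 5, .ex 5, .p5 3 1 0 7 5, .p5 4 3 0 1 6]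

/-- hints -/
def L : List (List ℕ) := [[3,12,15,9,14,13,16,18,17,20,8,10],
  [21,13,16,18,20,8,7],
  [26,27],
  [19,4,23,1,11,22,13,16,18,20,7,24,0],
  [28,29,3,6,12,15,14],
  [30,3,12,15,9,25,1,4,19,23,6,2,5,22],
  [31,27],
  [31,32,29]]

/-- extra clauses -/
def E : List (List ℕ) := [[6, 70, 134], [7, 71, 135], [3, 71, 11], [3, 71, 75], [3, 71, 203], [3, 71, 10, 74, 138], [5, 7, 141], [5, 7, 13], [5, 7, 205], [5, 7, 12, 76, 140], [69, 135, 79], [69, 135, 143], [69, 135, 207], [69, 135, 14, 78, 142]]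

/-- adjacencies -/
def P : List (ℕ × ℕ) := [(0, 1), (1, 2), (3, 4), (0, 2)]

/-- non-adjacencies -/
def N : List (ℕ × ℕ) := [(4, 0), (4, 1), (4, 2)]

/-- mask -/
def m0 : ℕ := 3213876088517980551171036470614085451696342549361346683601192

theorem c0 : m0 = maskN (maskP 0 P) N := by decide +kernel
theorem c1 : chk (Ax.cl E) (Ax.ok false false) tr 0 axs = true := by decide +kernel
theorem c2 : run tr m0 axs.length L = true := by decide +kernel
theorem c3 : beqL (find tr (axs.length + L.length - 1)) [] = true := by decide +kernel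
theorem c4 : 0 < L.length := by decide +kernel

end StT

namespace StN

/-- clauses -/
def tr : Tr := (.nd [3,71,11] (.nd [69,135,14,78,142] (.nd [201,7,15,335,8,270,266,206,202,10] (.nd [3,71,10,74,138] (.nd [3,71,203] .lf .lf) (.nd [3,69,139,267,4,10,8,74,72,136] .lf .lf)) (.nd [7,135,13] (.nd [269,201,7,15,204,12,398,8,270,206] .lf .lf) (.nd [135] .lf .lf))) (.nd [201,7,3,77,8,72,268,70,204,12] (.nd [3,69,135,201,4,6,8,70,72,136] (.nd [69,3,7,201,4,134,136,70,72,8] .lf .lf) (.nd [7,399,135] .lf .lf)) (.nd [135,7,15,399,4,142,140,206,204,12] (.nd [6,70,134] .lf .lf) (.nd [6] .lf .lf)))) (.nd [69,135,207] (.nd [69,3,15,271,4,142,136,78,72,8] (.nd [3,71,75] (.nd [7,135,12,76,140] .lf .lf) (.nd [7,12,135,15,142,399,206,204] .lf .lf)) (.nd [69,135,79] (.nd [69,135,143] .lf .lf) (.nd [71] .lf .lf))) (.nd [7,135,205] (.nd [139,135,7,15,202,10,334,4,142,206] (.nd [201,71,69,139,72,136,266,134,202,74] .lf .lf) (.nd [6,135]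 .lf .lf)) (.nd [7,135,141] (.nd [201,71,3,15,72,8,270,6,206,78] .lf .lf) (.nd [] .lf .lf)))))

/-- the clauses taken from the families -/
def axs : List Ax := [.ex 1, .ex 12, .ex 11, .p5 4 3 0 7 5, .p5 2 1 0 7 4, .p5 4 3 0 1 6, .ex 6, .ex 4, .ex 2, .p5 0 1 2 3 4, .p5 5 2 3 0 7, .ex 5, .ex 9, .p5 2 3 0 7 6, .ex 7, .ex 3, .ex 8, .p5 2 1 0 3 4, .p5 4 3 1 2 5, .p5 6 4 3 0 7, .ex 10, .ex 0, .p5 4 3 1 0 7, .p5 0 1 2 5 4]

/-- hints -/
def L : List (List ℕ) := [[13,14],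
  [12,20,1,2,6,11,24],
  [12,20,1,4,2,9,22],
  [2,12,20,1,4,26,6,11,14,25,16,19,5,0,8,15,7,10,23,3],
  [27,0,8,15,7,18,23],
  [28,27,21],
  [29,28,27,17]]

/-- extra clauses -/
def E : List (List ℕ) := [[6, 70, 134], [3, 71, 11], [3, 71, 75], [3, 71, 203], [3, 71, 10, 74, 138], [7, 135, 13], [7, 135, 205], [7, 135, 141], [7, 135, 12, 76, 140], [69, 135, 79], [69, 135, 143], [69, 135, 207], [69, 135, 14, 78, 142]]

/-- adjacencies -/
def P : List (ℕ × ℕ) := [(0, 1), (1, 2), (3, 4)]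

/-- non-adjacencies -/
def N : List (ℕ × ℕ) := [(0, 2), (4, 0), (4, 1), (4, 2)]

/-- mask -/
def m0 : ℕ := 3213876088517980551171036470614085451696342549361346683601176

theorem c0 : m0 = maskN (maskP 0 P) N := by decide +kernel
theorem c1 : chk (Ax.cl E) (Ax.ok false false) tr 0 axs = true := by decide +kernel
theorem c2 : run tr m0 axs.length L = true := by decide +kernel
theorem c3 : beqL (find tr (axs.length + L.length - 1)) [] = true := by decide +kernel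
theorem c4 : 0 < L.length := by decide +kernel

end StN

end Pool.Agent.X251.FZ
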