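import Mathlib
import Pool.Agent.X251.FZ.StepData

/-!
# Extending a set dominated by a connected triple
-/

set_option autoImplicit false

namespace Pool.Agent.X251.FZ

variable {V : Type*} {A : V → V → Prop}

/-- the sequence of eight vertices -/
def W8 (a b c u v w1 w2 w3 : V) : ℕ → V
  | 0 => a | 1 => b | 2 => c | 3 => u | 4 => v | 5 => w1 | 6 => w2 | _ => w3

theorem cl_nil' (v : ℕ → Prop) : Cl v [] ↔ False := iff_of_false (cl_nil v) id

theorem cneg {P Q R : Prop} (h : P → Q → ¬ R) : ¬ P ∨ ¬ Q ∨ ¬ R ∨ False := by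
  by_cases hP : P
  · by_cases hQ : Q
    · exact Or.inr (Or.inr (Or.inl (h hP hQ)))
    · exact Or.inr (Or.inl hQ)
  · exact Or.inl hP

theorem cpos {P Q R1 R2 R3 : Prop} (h : P → Q → (R1 ∨ R2 ∨ R3)) :
    ¬ P ∨ ¬ Q ∨ R1 ∨ R2 ∨ R3 ∨ False := by
  by_cases hP : P
  · by_cases hQ : Q
    · rcases h hP hQ with h' | h' | h'
      · exact Or.inr (Or.inr (Or.inl h'))
      · exact Or.inr (Or.inr (Or.inr (Or.inl h')))
      · exact Or.inr (Or.inr (Or.inr (Or.inr (Or.inl h'))))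
    · exact Or.inr (Or.inl hQ)
  · exact Or.inl hP

theorem step_tri (hs : ∀ x y, A x y → A y x)
    (hp : ∀ a b c d e, A a b → A b c → A c d → A d e → ¬ A a c → ¬ A a d → ¬ A a e → ¬ A b d →
      ¬ A b e → ¬ A c e → False) {a b c u v w1 w2 w3 : V}
    (hab : A a b) (hbc : A b c) (hac : A a c) (huv : A u v)
    (hva : ¬ A v a) (hvb : ¬ A v b) (hvc : ¬ A v c) (hu : A u a ∨ A u b ∨ A u c)
    (hk : ¬ (A u a ∧ A u b ∧ A u c))
    (h1 : A a b → A b u → ¬ A w1 a ∧ ¬ A w1 b ∧ ¬ A w1 u ∧ (A w1 a ∨ A w1 b ∨ A w1 c))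
    (h2 : A c a → A a u → ¬ A w2 c ∧ ¬ A w2 a ∧ ¬ A w2 u ∧ (A w2 a ∨ A w2 b ∨ A w2 c))
    (h3 : A b c → A c u → ¬ A w3 b ∧ ¬ A w3 c ∧ ¬ A w3 u ∧ (A w3 a ∨ A w3 b ∨ A w3 c)) :
    False := by
  obtain ⟨W, e0, e1, e2, e3, e4, e5, e6, e7⟩ : ∃ W : ℕ → V, W 0 = a ∧ W 1 = b ∧ W 2 = c ∧ W 3 = u ∧
      W 4 = v ∧ W 5 = w1 ∧ W 6 = w2 ∧ W 7 = w3 :=
    ⟨W8 a b c u v w1 w2 w3, rfl, rfl, rfl, rfl, rfl, rfl, rfl, rfl⟩
  let f : V → ℕ := fun _ => 0
  have hm : MV (val A f W) StT.m0 := by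
    rw [StT.c0]
    refine maskN_mv hs _ _ (maskP_mv hs _ _ (mv_zero _) ?_) ?_
    · intro p hp'
      simp only [StT.P, List.mem_cons, List.not_mem_nil, or_false] at hp'
      rcases hp' with rfl | rfl | rfl | rfl <;> refine ⟨by norm_num, by norm_num, ?_⟩ <;>
        simp only [e0, e1, e2, e3, e4] <;> assumption
    · intro p hp'
      simp only [StT.N, List.mem_cons, List.not_mem_nil, or_false] at hp'
      rcases hp' with rfl | rfl | rfl <;> refine ⟨by norm_num, by norm_num, ?_⟩ <;>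
        simp only [e0, e1, e2, e3, e4] <;> assumption
  have hE0 : StT.E = [[ps (ev 3 0), ps (ev 3 1), ps (ev 3 2)], [ng (ev 3 0), ng (ev 3 1), ng (ev 3 2)],
      [ng (ev 0 1), ng (ev 1 3), ng (ev 5 0)], [ng (ev 0 1), ng (ev 1 3), ng (ev 5 1)],
      [ng (ev 0 1), ng (ev 1 3), ng (ev 5 3)],
      [ng (ev 0 1), ng (ev 1 3), ps (ev 5 0), ps (ev 5 1), ps (ev 5 2)],
      [ng (ev 2 0), ng (ev 0 3), ng (ev 6 2)], [ng (ev 2 0), ng (ev 0 3), ng (ev 6 0)],
      [ng (ev 2 0), ng (ev 0 3), ng (ev 6 3)],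
      [ng (ev 2 0), ng (ev 0 3), ps (ev 6 0), ps (ev 6 1), ps (ev 6 2)],
      [ng (ev 1 2), ng (ev 2 3), ng (ev 7 1)], [ng (ev 1 2), ng (ev 2 3), ng (ev 7 2)],
      [ng (ev 1 2), ng (ev 2 3), ng (ev 7 3)],
      [ng (ev 1 2), ng (ev 2 3), ps (ev 7 0), ps (ev 7 1), ps (ev 7 2)]] := by decide +kernel
  have hv : ∀ i j : ℕ, i < 8 → j < 8 → (val A f W (ev i j) ↔ A (W i) (W j)) :=
    fun i j hi hj => val_ev hs (by omega) (by omega)
  have hE : ∀ c ∈ StT.E, Cl (val A f W) c := by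
    intro c hc
    rw [hE0] at hc
    simp only [List.mem_cons, List.not_mem_nil, or_false] at hc
    rcases hc with rfl | rfl | rfl | rfl | rfl | rfl | rfl | rfl | rfl | rfl | rfl | rfl | rfl | rfl <;>
      simp (disch := norm_num) only [cl_cons, cl_nil', lit_ps, lit_ng, hv, e0, e1, e2, e3, e5, e6, e7]
    · rcases hu with h | h | h
      · exact Or.inl h
      · exact Or.inr (Or.inl h)
      · exact Or.inr (Or.inr (Or.inl h))
    · by_cases ha : A u a
      · by_cases hb : A u b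
        · exact Or.inr (Or.inr (Or.inl (fun hc => hk ⟨ha, hb, hc⟩)))
        · exact Or.inr (Or.inl hb)
      · exact Or.inl ha
    · exact cneg (fun p q => (h1 p q).1)
    · exact cneg (fun p q => (h1 p q).2.1)
    · exact cneg (fun p q => (h1 p q).2.2.1)
    · exact cpos (fun p q => (h1 p q).2.2.2)
    · exact cneg (fun p q => (h2 p q).1)
    · exact cneg (fun p q => (h2 p q).2.1)
    · exact cneg (fun p q => (h2 p q).2.2.1)
    · exact cpos (fun p q => (h2 p q).2.2.2)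
    · exact cneg (fun p q => (h3 p q).1)
    · exact cneg (fun p q => (h3 p q).2.1)
    · exact cneg (fun p q => (h3 p q).2.2.1)
    · exact cpos (fun p q => (h3 p q).2.2.2)
  exact refute (v := val A f W) (fun a ha => ax_valid (dm := false) (cm := false) hs hp
    (fun h => Bool.noConfusion h) (fun h => Bool.noConfusion h) hE a ha) hm StT.c1 StT.c2 StT.c3 StT.c4

theorem step_non (hs : ∀ x y, A x y → A y x)
    (hp : ∀ a b c d e, A a b → A b c → A c d → A d e → ¬ A a c → ¬ A a d → ¬ A a e → ¬ A b d →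
      ¬ A b e → ¬ A c e → False) {a b c u v w1 w2 w3 : V}
    (hab : A a b) (hbc : A b c) (hac : ¬ A a c) (huv : A u v)
    (hva : ¬ A v a) (hvb : ¬ A v b) (hvc : ¬ A v c) (hu : A u a ∨ A u b ∨ A u c)
    (h1 : A a b → A b u → ¬ A w1 a ∧ ¬ A w1 b ∧ ¬ A w1 u ∧ (A w1 a ∨ A w1 b ∨ A w1 c))
    (h2 : A a u → A u c → ¬ A w2 a ∧ ¬ A w2 u ∧ ¬ A w2 c ∧ (A w2 a ∨ A w2 b ∨ A w2 c))
    (h3 : A b c → A c u → ¬ A w3 b ∧ ¬ A w3 c ∧ ¬ A w3 u ∧ (A w3 a ∨ A w3 b ∨ A w3 c)) :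
    False := by
  obtain ⟨W, e0, e1, e2, e3, e4, e5, e6, e7⟩ : ∃ W : ℕ → V, W 0 = a ∧ W 1 = b ∧ W 2 = c ∧ W 3 = u ∧
      W 4 = v ∧ W 5 = w1 ∧ W 6 = w2 ∧ W 7 = w3 :=
    ⟨W8 a b c u v w1 w2 w3, rfl, rfl, rfl, rfl, rfl, rfl, rfl, rfl⟩
  let f : V → ℕ := fun _ => 0
  have hm : MV (val A f W) StN.m0 := by
    rw [StN.c0]
    refine maskN_mv hs _ _ (maskP_mv hs _ _ (mv_zero _) ?_) ?_
    · intro p hp'
      simp only [StN.P, List.mem_cons, List.not_mem_nil, or_false] at hp'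
      rcases hp' with rfl | rfl | rfl <;> refine ⟨by norm_num, by norm_num, ?_⟩ <;>
        simp only [e0, e1, e2, e3, e4] <;> assumption
    · intro p hp'
      simp only [StN.N, List.mem_cons, List.not_mem_nil, or_false] at hp'
      rcases hp' with rfl | rfl | rfl | rfl <;> refine ⟨by norm_num, by norm_num, ?_⟩ <;>
        simp only [e0, e1, e2, e3, e4] <;> assumption
  have hE0 : StN.E = [[ps (ev 3 0), ps (ev 3 1), ps (ev 3 2)],
      [ng (ev 0 1), ng (ev 1 3), ng (ev 5 0)], [ng (ev 0 1), ng (ev 1 3), ng (ev 5 1)],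
      [ng (ev 0 1), ng (ev 1 3), ng (ev 5 3)],
      [ng (ev 0 1), ng (ev 1 3), ps (ev 5 0), ps (ev 5 1), ps (ev 5 2)],
      [ng (ev 0 3), ng (ev 3 2), ng (ev 6 0)], [ng (ev 0 3), ng (ev 3 2), ng (ev 6 3)],
      [ng (ev 0 3), ng (ev 3 2), ng (ev 6 2)],
      [ng (ev 0 3), ng (ev 3 2), ps (ev 6 0), ps (ev 6 1), ps (ev 6 2)],
      [ng (ev 1 2), ng (ev 2 3), ng (ev 7 1)], [ng (ev 1 2), ng (ev 2 3), ng (ev 7 2)],
      [ng (ev 1 2), ng (ev 2 3), ng (ev 7 3)],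
      [ng (ev 1 2), ng (ev 2 3), ps (ev 7 0), ps (ev 7 1), ps (ev 7 2)]] := by decide +kernel
  have hv : ∀ i j : ℕ, i < 8 → j < 8 → (val A f W (ev i j) ↔ A (W i) (W j)) :=
    fun i j hi hj => val_ev hs (by omega) (by omega)
  have hE : ∀ c ∈ StN.E, Cl (val A f W) c := by
    intro c hc
    rw [hE0] at hc
    simp only [List.mem_cons, List.not_mem_nil, or_false] at hc
    rcases hc with rfl | rfl | rfl | rfl | rfl | rfl | rfl | rfl | rfl | rfl | rfl | rfl | rfl <;>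
      simp (disch := norm_num) only [cl_cons, cl_nil', lit_ps, lit_ng, hv, e0, e1, e2, e3, e5, e6, e7]
    · rcases hu with h | h | h
      · exact Or.inl h
      · exact Or.inr (Or.inl h)
      · exact Or.inr (Or.inr (Or.inl h))
    · exact cneg (fun p q => (h1 p q).1)
    · exact cneg (fun p q => (h1 p q).2.1)
    · exact cneg (fun p q => (h1 p q).2.2.1)
    · exact cpos (fun p q => (h1 p q).2.2.2)
    · exact cneg (fun p q => (h2 p q).1)
    · exact cneg (fun p q => (h2 p q).2.1)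
    · exact cneg (fun p q => (h2 p q).2.2.1)
    · exact cpos (fun p q => (h2 p q).2.2.2)
    · exact cneg (fun p q => (h3 p q).1)
    · exact cneg (fun p q => (h3 p q).2.1)
    · exact cneg (fun p q => (h3 p q).2.2.1)
    · exact cpos (fun p q => (h3 p q).2.2.2)
  exact refute (v := val A f W) (fun a ha => ax_valid (dm := false) (cm := false) hs hp
    (fun h => Bool.noConfusion h) (fun h => Bool.noConfusion h) hE a ha) hm StN.c1 StN.c2 StN.c3 StN.c4

/-- If a set of vertices is dominated by a connected triple, so is the set together with any vertex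
adjacent to one of its members. -/
theorem step {f c : V → ℕ} (h : Sys A f c) {S : V → Prop} {x y z u v : V}
    (hxy : A x y) (hyz : A y z) (hdom : ∀ s, S s → A s x ∨ A s y ∨ A s z) (hSu : S u)
    (huv : A u v) :
    ∃ x' y' z', A x' y' ∧ A y' z' ∧ ∀ s, (S s ∨ s = v) → A s x' ∨ A s y' ∨ A s z' := by
  by_contra hn
  push Not at hn
  have hv0 : ¬ (A v x ∨ A v y ∨ A v z) := by
    intro hv
    obtain ⟨s, hs, h1, h2, h3⟩ := hn x y z hxy hyz
    rcases hs with hs | rfl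
    · rcases hdom s hs with h' | h' | h' <;> tauto
    · tauto
  have key : ∀ p q r, A p q → A q r → (A v p ∨ A v q ∨ A v r) →
      ∃ w, ¬ A w p ∧ ¬ A w q ∧ ¬ A w r ∧ (A w x ∨ A w y ∨ A w z) := by
    intro p q r hpq hqr hv
    obtain ⟨s, hs, h1, h2, h3⟩ := hn p q r hpq hqr
    rcases hs with hs | rfl
    · exact ⟨s, h1, h2, h3, hdom s hs⟩
    · exact absurd hv (by tauto)
  have key' : ∀ p q r, (A v p ∨ A v q ∨ A v r) → ∃ w, A p q → A q r →
      ¬ A w p ∧ ¬ A w q ∧ ¬ A w r ∧ (A w x ∨ A w y ∨ A w z) := by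
    intro p q r hv
    by_cases h1 : A p q
    · by_cases h2 : A q r
      · obtain ⟨w, hw⟩ := key p q r h1 h2 hv
        exact ⟨w, fun _ _ => hw⟩
      · exact ⟨x, fun _ h' => absurd h' h2⟩
    · exact ⟨x, fun h' => absurd h' h1⟩
  have hvu := h.symm _ _ huv
  obtain ⟨w1, h1⟩ := key' x y u (Or.inr (Or.inr hvu))
  obtain ⟨w3, h3⟩ := key' y z u (Or.inr (Or.inr hvu))
  have hu := hdom u hSu
  by_cases hxz : A x z
  · obtain ⟨w2, h2⟩ := key' z x u (Or.inr (Or.inr hvu))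
    refine step_tri h.symm h.p5 hxy hyz hxz huv (by tauto) (by tauto) (by tauto) hu ?_ h1 h2 h3
    rintro ⟨ha, hb, hc⟩
    have e1 := h.fp _ _ ha
    have e2 := h.fp _ _ hb
    have e3 := h.fp _ _ hc
    have e4 := h.fp _ _ hxy
    have e5 := h.fp _ _ hyz
    have e6 := h.fp _ _ hxz
    have e7 := h.f3 x
    have e8 := h.f3 y
    have e9 := h.f3 z
    have e10 := h.f3 u
    omega
  · obtain ⟨w2, h2⟩ := key' x u z (Or.inr (Or.inl hvu))
    exact step_non h.symm h.p5 hxy hyz hxz huv (by tauto) (by tauto) (by tauto) hu h1 h2 h3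

end Pool.Agent.X251.FZ
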