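import Mathlib
import Pool.Agent.X251.FZ.Step
import Pool.Agent.X251.FZ.Tri
import Pool.Agent.X251.FZ.SameA
import Pool.Agent.X251.FZ.SameB
import Pool.Agent.X251.FZ.DiffA
import Pool.Agent.X251.FZ.DiffB

/-!
# No `P₅`-free 3-colourable graph has a frozen 4-colouring
-/

set_option autoImplicit false

namespace Pool.Agent.X251.FZ

theorem perm4 : ∀ x y z : Fin 4, x ≠ y → y ≠ z → x ≠ z →
    ∃ σ : Equiv.Perm (Fin 4), σ x = 0 ∧ σ y = 1 ∧ σ z = 2 := by decide +kernel

theorem perm4' : ∀ x y : Fin 4, x ≠ y → ∃ σ : Equiv.Perm (Fin 4), σ x = 0 ∧ σ y = 1 := by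
  decide +kernel

theorem perm3 : ∀ x y z : Fin 3, x ≠ y → y ≠ z → x ≠ z →
    ∃ σ : Equiv.Perm (Fin 3), σ x = 0 ∧ σ y = 1 ∧ σ z = 2 := by decide +kernel

theorem perm3' : ∀ x y : Fin 3, x ≠ y → ∃ σ : Equiv.Perm (Fin 3), σ x = 0 ∧ σ y = 1 := by
  decide +kernel

/-- The data with colours in `Fin 3` and `Fin 4`. -/
structure FSys {V : Type*} (A : V → V → Prop) (f : V → Fin 3) (c : V → Fin 4) : Prop where
  symm : ∀ x y, A x y → A y x
  p5 : ∀ a b c d e, A a b → A b c → A c d → A d e → ¬ A a c → ¬ A a d → ¬ A a e → ¬ A b d →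
      ¬ A b e → ¬ A c e → False
  fp : ∀ x y, A x y → f x ≠ f y
  cp : ∀ x y, A x y → c x ≠ c y
  fr : ∀ x (k : Fin 4), k ≠ c x → ∃ y, A x y ∧ c y = k

variable {V : Type*} {A : V → V → Prop} {f : V → Fin 3} {c : V → Fin 4}

theorem FSys.toSys (h : FSys A f c) (σ : Equiv.Perm (Fin 4)) (τ : Equiv.Perm (Fin 3)) :
    Sys A (fun v => (τ (f v)).val) (fun v => (σ (c v)).val) where
  symm := h.symm
  p5 := h.p5
  f3 := fun x => (τ (f x)).isLt
  fp := fun x y hxy he => h.fp x y hxy (τ.injective (Fin.ext he))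
  cp := fun x y hxy he => h.cp x y hxy (σ.injective (Fin.ext he))
  fr := by
    intro x k hk hne
    obtain ⟨y, hy1, hy2⟩ := h.fr x (σ.symm ⟨k, hk⟩) (by
      intro he
      apply hne
      rw [← he, Equiv.apply_symm_apply])
    refine ⟨y, hy1, ?_⟩
    rw [hy2, Equiv.apply_symm_apply]

theorem FSys.no_dom (h : FSys A f c) {x y z : V} (hxy : A x y) (hyz : A y z)
    (hdom : ∀ w, A w x ∨ A w y ∨ A w z) : False := by
  have c1 := h.cp _ _ hxy
  have c2 := h.cp _ _ hyz
  have f1 := h.fp _ _ hxy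
  have f2 := h.fp _ _ hyz
  by_cases hxz : A x z
  · obtain ⟨σ, s1, s2, s3⟩ := perm4 _ _ _ c1 c2 (h.cp _ _ hxz)
    obtain ⟨τ, t1, t2, t3⟩ := perm3 _ _ _ f1 f2 (h.fp _ _ hxz)
    exact Tri.main (h.toSys σ τ) hxy hyz hdom (by simp [s1]) (by simp [s2]) (by simp [s3])
      (by simp [t1]) (by simp [t2]) (by simp [t3]) hxz
  · by_cases hc : c x = c z
    · obtain ⟨σ, s1, s2⟩ := perm4' _ _ c1
      by_cases hf : f x = f z
      · obtain ⟨τ, t1, t2⟩ := perm3' _ _ f1
        exact SameA.main (h.toSys σ τ) hxy hyz hdom (by simp [s1]) (by simp [s2]) (by simp [← hc, s1])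
          (by simp [t1]) (by simp [t2]) (by simp [← hf, t1]) hxz
      · obtain ⟨τ, t1, t2, t3⟩ := perm3 _ _ _ f1 f2 hf
        exact SameB.main (h.toSys σ τ) hxy hyz hdom (by simp [s1]) (by simp [s2]) (by simp [← hc, s1])
          (by simp [t1]) (by simp [t2]) (by simp [t3]) hxz
    · obtain ⟨σ, s1, s2, s3⟩ := perm4 _ _ _ c1 c2 hc
      by_cases hf : f x = f z
      · obtain ⟨τ, t1, t2⟩ := perm3' _ _ f1
        exact DiffA.main (h.toSys σ τ) hxy hyz hdom (by simp [s1]) (by simp [s2]) (by simp [s3])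
          (by simp [t1]) (by simp [t2]) (by simp [← hf, t1]) hxz
      · obtain ⟨τ, t1, t2, t3⟩ := perm3 _ _ _ f1 f2 hf
        exact DiffB.main (h.toSys σ τ) hxy hyz hdom (by simp [s1]) (by simp [s2]) (by simp [s3])
          (by simp [t1]) (by simp [t2]) (by simp [t3]) hxz

theorem FSys.false [Finite V] [Nonempty V] (h : FSys A f c) : False := by
  classical
  have := Fintype.ofFinite V
  let Q : Finset V → Prop := fun S => S.Nonempty ∧ ∃ x y z, A x y ∧ A y z ∧
    ∀ s ∈ S, A s x ∨ A s y ∨ A s z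
  obtain ⟨v0⟩ := ‹Nonempty V›
  obtain ⟨k, hk⟩ : ∃ k : Fin 4, k ≠ c v0 := exists_ne _
  obtain ⟨y0, hy0, _⟩ := h.fr v0 k hk
  have hQ0 : Q {v0} := ⟨Finset.singleton_nonempty _, y0, v0, y0, h.symm _ _ hy0, hy0, by
    intro s hs
    rw [Finset.mem_singleton] at hs
    subst hs
    exact Or.inl hy0⟩
  obtain ⟨S, hS, hmax⟩ : ∃ S, Q S ∧ ∀ S', Q S' → S'.card ≤ S.card := by
    have hfin : (Finset.univ.filter Q).Nonempty := ⟨{v0}, by simpa using hQ0⟩
    obtain ⟨S, hS, hm⟩ := Finset.exists_max_image (Finset.univ.filter Q) Finset.card hfin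
    exact ⟨S, by simpa using hS, fun S' hS' => hm S' (by simpa using hS')⟩
  obtain ⟨⟨s0, hs0⟩, x, y, z, hxy, hyz, hdom⟩ := hS
  have hcl : ∀ u ∈ S, ∀ v, A u v → v ∈ S := by
    intro u hu v huv
    by_contra hv
    obtain ⟨x', y', z', h1, h2, h3⟩ := step (h.toSys 1 1) (S := fun s => s ∈ S) hxy hyz hdom hu huv
    have := hmax (insert v S) ⟨⟨v, Finset.mem_insert_self _ _⟩, x', y', z', h1, h2, by
      intro s hs
      rw [Finset.mem_insert] at hs
      exact h3 s hs.symm⟩
    rw [Finset.card_insert_of_notMem hv] at this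
    omega
  have hxyz : x ∈ S ∧ y ∈ S ∧ z ∈ S := by
    rcases hdom s0 hs0 with h' | h' | h'
    · have hx := hcl _ hs0 _ h'
      have hy := hcl _ hx _ hxy
      exact ⟨hx, hy, hcl _ hy _ hyz⟩
    · have hy := hcl _ hs0 _ h'
      exact ⟨hcl _ hy _ (h.symm _ _ hxy), hy, hcl _ hy _ hyz⟩
    · have hz := hcl _ hs0 _ h'
      have hy := hcl _ hz _ (h.symm _ _ hyz)
      exact ⟨hcl _ hy _ (h.symm _ _ hxy), hy, hz⟩
  have h' : FSys (V := {v // v ∈ S}) (fun p q => A p.1 q.1) (fun p => f p.1) (fun p => c p.1) :=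
    { symm := fun p q hpq => h.symm _ _ hpq
      p5 := fun a b c d e => h.p5 _ _ _ _ _
      fp := fun p q hpq => h.fp _ _ hpq
      cp := fun p q hpq => h.cp _ _ hpq
      fr := fun p k hk => by
        obtain ⟨w, hw1, hw2⟩ := h.fr p.1 k hk
        exact ⟨⟨w, hcl _ p.2 _ hw1⟩, hw1, hw2⟩ }
  exact h'.no_dom (x := ⟨x, hxyz.1⟩) (y := ⟨y, hxyz.2.1⟩) (z := ⟨z, hxyz.2.2⟩) hxy hyz
    (fun w => hdom w.1 w.2)

/-- **Theorem.** A finite nonempty 3-colourable graph without induced 5-vertex path has no frozen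
4-colouring. -/
theorem no_frozen {V : Type*} [Finite V] [Nonempty V] (G : SimpleGraph V) (h3 : G.Colorable 3)
    (h5 : IsEmpty (SimpleGraph.pathGraph 5 ↪g G)) (c : G.Coloring (Fin 4))
    (hc : ∀ v : V, ∀ i : Fin 4, i ≠ c v → ∃ w : V, G.Adj v w ∧ c w = i) : False := by
  obtain ⟨f⟩ := h3
  have h : FSys G.Adj (fun v => f v) (fun v => c v) :=
    { symm := fun x y hxy => hxy.symm
      p5 := by
        intro a b c d e hab hbc hcd hde hac had hae hbd hbe hce
        have hne : ∀ {p q r : V}, G.Adj p r → ¬ G.Adj q r → p ≠ q := by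
          rintro p q r h1 h2 rfl; exact h2 h1
        have n1 : a ≠ b := hab.ne
        have n2 : b ≠ c := hbc.ne
        have n3 : c ≠ d := hcd.ne
        have n4 : d ≠ e := hde.ne
        have n5 : a ≠ c := fun h => had (h ▸ hcd)
        have n6 : a ≠ d := fun h => hac (h ▸ hcd.symm)
        have n7 : a ≠ e := fun h => had (h ▸ hde.symm)
        have n8 : b ≠ d := fun h => hbe (h ▸ hde)
        have n9 : b ≠ e := fun h => hbd (h ▸ hde.symm)
        have n10 : c ≠ e := fun h => hbe (h ▸ hbc)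
        refine h5.false ⟨⟨![a, b, c, d, e], ?_⟩, ?_⟩
        · intro i j hij
          fin_cases i <;> fin_cases j <;> first | rfl | (exfalso; revert hij; simp; tauto)
        · intro i j
          have hba := hab.symm
          have hcb := hbc.symm
          have hdc := hcd.symm
          have hed := hde.symm
          have hca : ¬ G.Adj c a := fun h => hac h.symm
          have hda : ¬ G.Adj d a := fun h => had h.symm
          have hea : ¬ G.Adj e a := fun h => hae h.symm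
          have hdb : ¬ G.Adj d b := fun h => hbd h.symm
          have heb : ¬ G.Adj e b := fun h => hbe h.symm
          have hec : ¬ G.Adj e c := fun h => hce h.symm
          change G.Adj (![a, b, c, d, e] i) (![a, b, c, d, e] j) ↔ (SimpleGraph.pathGraph 5).Adj i j
          rw [SimpleGraph.pathGraph_adj]
          fin_cases i <;> fin_cases j <;> simp [*]
      fp := fun x y hxy => f.valid hxy
      cp := fun x y hxy => c.valid hxy
      fr := hc }
  exact h.false

end Pool.Agent.X251.FZ
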